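import Pool.Agent.GT.StmtsE

/-!
# Squad GT, row E_GRP: from classes to the group
-/

set_option autoImplicit false

namespace Pool.Agent.GT.OF.H85

open Pool.Agent.NJ Pool.Agent.GT.D Pool.Agent.GT.OF

/-- a rational point in lowest terms -/
theorem toTri (e : Fin 3 → ℤ) (X : ℚ) (hne : ∀ i, X ≠ e i)
    (hsq : IsSquare ((X - e 0) * (X - e 1) * (X - e 2))) :
    ∃ x w : ℤ, Tri e x w ∧ X = (x : ℚ) / (w : ℚ) ^ 2 := by
  obtain ⟨a, ha⟩ : ∃ a : ℤ, a = X.num := ⟨_, rfl⟩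
  obtain ⟨b, hb⟩ : ∃ b : ℤ, b = (X.den : ℤ) := ⟨_, rfl⟩
  have hb0 : 0 < b := by rw [hb]; exact_mod_cast X.den_pos
  have hbq : (b : ℚ) ≠ 0 := by exact_mod_cast hb0.ne'
  have hX : X = (a : ℚ) / (b : ℚ) := by
    rw [ha, hb]
    push_cast
    exact (Rat.num_div_den X).symm
  have hcop : IsCoprime a b := by
    rw [ha, hb, Int.isCoprime_iff_gcd_eq_one]
    have := X.reduced
    rw [Nat.Coprime] at this
    rw [Int.gcd_def, Int.natAbs_natCast]
    exact this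
  have hN : ∀ i, X - e i = ((a - e i * b : ℤ) : ℚ) / (b : ℚ) := by
    intro i
    rw [hX]
    push_cast
    field_simp
  have hN0 : ∀ i, a - e i * b ≠ 0 := by
    intro i h
    have := hN i
    rw [h, Int.cast_zero, zero_div, sub_eq_zero] at this
    exact hne i this
  have hci : ∀ i, IsCoprime (a - e i * b) b := by
    intro i
    have h := hcop.add_mul_right_left (-(e i))
    have e1 : a + -(e i) * b = a - e i * b := by ring
    rwa [e1] at h
  obtain ⟨P, hP⟩ : ∃ P : ℤ, P = (a - e 0 * b) * (a - e 1 * b) * (a - e 2 * b) := ⟨_, rfl⟩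
  have hPc : IsCoprime b P := by
    rw [hP]
    exact (((hci 0).mul_left (hci 1)).mul_left (hci 2)).symm
  have h1 : IsSquare ((b * P : ℤ) : ℚ) := by
    obtain ⟨s, hs⟩ := hsq
    rw [hN 0, hN 1, hN 2] at hs
    refine ⟨s * (b : ℚ) ^ 2, ?_⟩
    have h2 : ((b * P : ℤ) : ℚ) = (((a - e 0 * b : ℤ) : ℚ) / (b : ℚ) * (((a - e 1 * b : ℤ) : ℚ) / (b : ℚ)) *
        (((a - e 2 * b : ℤ) : ℚ) / (b : ℚ))) * (b : ℚ) ^ 4 := by
      rw [hP]
      push_cast
      field_simp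
    rw [h2, hs]
    ring
  have h2 : IsSquare (b * P) := Rat.isSquare_intCast_iff.1 h1
  obtain ⟨c, hc⟩ := h2
  have h3 : Int.gcd b P = 1 := Int.isCoprime_iff_gcd_eq_one.1 hPc
  obtain ⟨w, hw⟩ := Int.sq_of_gcd_eq_one h3 (by rw [hc]; ring : b * P = c ^ 2)
  have hw2 : b = w ^ 2 := by
    rcases hw with hw | hw
    · exact hw
    · have : 0 ≤ w ^ 2 := sq_nonneg w
      omega
  have hw0 : w ≠ 0 := by
    rintro rfl
    rw [hw2] at hb0
    norm_num at hb0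
  have hwq : (w : ℚ) ≠ 0 := by exact_mod_cast hw0
  refine ⟨a, w, ⟨hw0, ?_, ?_, ?_⟩, ?_⟩
  · rw [hw2] at hcop
    exact (IsCoprime.pow_right_iff (by norm_num)).1 hcop
  · intro i
    unfold Xc
    rw [← hw2]
    exact hN0 i
  · have h4 : IsSquare ((P : ℤ) : ℚ) := by
      refine ⟨(c : ℚ) / w, ?_⟩
      have h5 : ((b * P : ℤ) : ℚ) = ((c * c : ℤ) : ℚ) := by rw [hc]
      push_cast at h5
      rw [hw2] at h5
      push_cast at h5
      field_simp
      linear_combination h5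
    have h6 : IsSquare P := Rat.isSquare_intCast_iff.1 h4
    unfold Xc
    rw [← hw2]
    rw [hP] at h6
    exact h6
  · rw [hX, hw2]
    push_cast
    rfl

section
variable {F : Type} [Field F]

theorem idx (j : Fin 3) : j + 1 ≠ j ∧ j + 2 ≠ j ∧ j + 1 ≠ j + 2 := by
  revert j
  decide

theorem idx3 (i j : Fin 3) : i = j ∨ i = j + 1 ∨ i = j + 2 := by
  revert i j
  decide

open Classical in
/-- the group from the classes -/
theorem key (dup : DupStmt) (trt : TrtStmt) (hlf : HlfStmt) (W : WeierstrassCurve F)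
    (e : Fin 3 → F) (hR : Rt3 W e)
    (h : ∀ x : F, (∀ i, x ≠ e i) → IsSquare ((x - e 0) * (x - e 1) * (x - e 2)) →
      (∀ i, IsSquare (x - e i)) ∨ ∃ j, ∀ k, k ≠ j → IsSquare ((x - e k) * (e j - e k))) :
    Div2 W := by
  obtain ⟨d1, -, d3, -, d5, d6, -, -⟩ := dup F W e hR
  intro Q
  by_cases hQ0 : Q = 0
  · exact ⟨0, 0, smul_zero _, by rw [hQ0, smul_zero, add_zero]⟩
  by_cases hQ2 : 2 • Q = 0
  · exact ⟨Q, 0, hQ2, by rw [smul_zero, add_zero]⟩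
  obtain ⟨x, hx⟩ := d6 Q hQ0
  have hxe : ∀ i, x ≠ e i := fun i hi => hQ2 ((d1 Q x hx).2 ⟨i, hi⟩)
  obtain ⟨-, hxs, -⟩ := d5 Q x hx
  rcases h x hxe hxs with h1 | ⟨j, hj⟩
  · obtain ⟨Q', hQ'⟩ := hlf F W e hR Q x hx h1
    exact ⟨0, Q', smul_zero _, by rw [zero_add]; exact hQ'⟩
  obtain ⟨T, hT⟩ := d3 j
  have hT2 : 2 • T = 0 := (d1 T (e j) hT).2 ⟨j, rfl⟩
  obtain ⟨x', hx', hxx⟩ := trt F W e hR T Q j x hT hx (hxe j)
  obtain ⟨-, hxs', -⟩ := d5 (Q + T) x' hx'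
  have hk0 : ∀ i, x - e i ≠ 0 := fun i => sub_ne_zero.2 (hxe i)
  -- the three indices
  have hjk : j + 1 ≠ j ∧ j + 2 ≠ j ∧ j + 1 ≠ j + 2 := idx j
  have hprod : ∀ g : Fin 3 → F, g 0 * g 1 * g 2 = g j * g (j + 1) * g (j + 2) := by
    intro g
    fin_cases j
    · rfl
    · show g 0 * g 1 * g 2 = g 1 * g 2 * g 0
      ring
    · show g 0 * g 1 * g 2 = g 2 * g 0 * g 1
      ring
  have hP := hprod fun i => x - e i
  have hP' := hprod fun i => x' - e i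
  rw [hP] at hxs
  rw [hP'] at hxs'
  have e1 : x' - e (j + 1) = ((x - e (j + 1)) * (e j - e (j + 1))) *
      ((x - e j) * (x - e (j + 1)) * (x - e (j + 2))) / ((x - e j) * (x - e (j + 1))) ^ 2 := by
    have a1 := hk0 j
    have a2 := hk0 (j + 1)
    rw [eq_div_iff (pow_ne_zero 2 (mul_ne_zero a1 a2))]
    linear_combination (x - e (j + 1)) ^ 2 * (x - e j) * hxx
  have e2 : x' - e (j + 2) = ((x - e (j + 2)) * (e j - e (j + 2))) *
      ((x - e j) * (x - e (j + 1)) * (x - e (j + 2))) / ((x - e j) * (x - e (j + 2))) ^ 2 := by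
    have a1 := hk0 j
    have a2 := hk0 (j + 2)
    rw [eq_div_iff (pow_ne_zero 2 (mul_ne_zero a1 a2))]
    linear_combination (x - e (j + 2)) ^ 2 * (x - e j) * hxx
  have s1 : IsSquare (x' - e (j + 1)) := by
    rw [e1]
    exact ((hj _ hjk.1).mul hxs).div (IsSquare.sq _)
  have s2 : IsSquare (x' - e (j + 2)) := by
    rw [e2]
    exact ((hj _ hjk.2.1).mul hxs).div (IsSquare.sq _)
  have n1 : x' - e (j + 1) ≠ 0 := by
    rw [e1]
    have b1 : e j - e (j + 1) ≠ 0 := sub_ne_zero.2 (hR.ne _ _ hjk.1.symm)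
    exact div_ne_zero (mul_ne_zero (mul_ne_zero (hk0 _) b1)
      (mul_ne_zero (mul_ne_zero (hk0 _) (hk0 _)) (hk0 _))) (pow_ne_zero _ (mul_ne_zero (hk0 _) (hk0 _)))
  have n2 : x' - e (j + 2) ≠ 0 := by
    rw [e2]
    have b1 : e j - e (j + 2) ≠ 0 := sub_ne_zero.2 (hR.ne _ _ hjk.2.1.symm)
    exact div_ne_zero (mul_ne_zero (mul_ne_zero (hk0 _) b1)
      (mul_ne_zero (mul_ne_zero (hk0 _) (hk0 _)) (hk0 _))) (pow_ne_zero _ (mul_ne_zero (hk0 _) (hk0 _)))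
  have s0 : IsSquare (x' - e j) := by
    have e0 : x' - e j = ((x' - e j) * (x' - e (j + 1)) * (x' - e (j + 2))) /
        ((x' - e (j + 1)) * (x' - e (j + 2))) := by
      field_simp
    rw [e0]
    exact hxs'.div (s1.mul s2)
  have hall : ∀ i, IsSquare (x' - e i) := by
    intro i
    rcases idx3 i j with h | h | h <;> rw [h]
    · exact s0
    · exact s1
    · exact s2
  obtain ⟨Q', hQ'⟩ := hlf F W e hR (Q + T) x' hx' hall
  refine ⟨T, Q', hT2, ?_⟩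
  rw [← hQ']
  have : T + (Q + T) = Q + 2 • T := by rw [two_smul]; abel
  rw [this, hT2, add_zero]

end

theorem e_grp (dup : DupStmt) (trt : TrtStmt) (hlf : HlfStmt) : GrpStmt := by
  intro W ε lam D hS hD
  have hl := hS.lam0
  have d1 : ε 2 - ε 0 = lam ^ 2 * (D 1 : ℚ) := hS.dif 1
  have d2 : ε 0 - ε 1 = lam ^ 2 * (D 2 : ℚ) := hS.dif 2
  have d0 : ε 1 - ε 2 = lam ^ 2 * (D 0 : ℚ) := hS.dif 0
  have hq : ∀ i, (D i : ℚ) ≠ 0 := fun i => by exact_mod_cast hS.D0 i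
  have hne : ∀ i j, i ≠ j → ε i ≠ ε j := by
    have a0 : ε 1 - ε 2 ≠ 0 := by rw [d0]; exact mul_ne_zero (pow_ne_zero 2 hl) (hq 0)
    have a1 : ε 2 - ε 0 ≠ 0 := by rw [d1]; exact mul_ne_zero (pow_ne_zero 2 hl) (hq 1)
    have a2 : ε 0 - ε 1 ≠ 0 := by rw [d2]; exact mul_ne_zero (pow_ne_zero 2 hl) (hq 2)
    intro i j hij h
    fin_cases i <;> fin_cases j
    · exact hij rfl
    · exact a2 (sub_eq_zero.2 h)
    · exact a1 (sub_eq_zero.2 h.symm)
    · exact a2 (sub_eq_zero.2 h.symm)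
    · exact hij rfl
    · exact a0 (sub_eq_zero.2 h)
    · exact a1 (sub_eq_zero.2 h)
    · exact a0 (sub_eq_zero.2 h.symm)
    · exact hij rfl
  have hR : Rt3 W ε := ⟨two_ne_zero, hS.rts, hne⟩
  refine key dup trt hlf W ε hR ?_
  intro x hx hsq
  have hc : ∀ i, ε i - ε 0 = lam ^ 2 * (rt 1 D i : ℚ) := by
    intro i
    fin_cases i
    · show ε 0 - ε 0 = lam ^ 2 * ((0 : ℤ) : ℚ)
      rw [sub_self, Int.cast_zero, mul_zero]
    · show ε 1 - ε 0 = lam ^ 2 * ((-(1 * D 2) : ℤ) : ℚ)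
      push_cast
      linear_combination -d2
    · show ε 2 - ε 0 = lam ^ 2 * ((1 * D 1 : ℤ) : ℚ)
      push_cast
      linear_combination d1
  obtain ⟨X, hX⟩ : ∃ X : ℚ, X = (x - ε 0) / lam ^ 2 := ⟨_, rfl⟩
  have hXi : ∀ i, X - (rt 1 D i : ℚ) = (x - ε i) / lam ^ 2 := by
    intro i
    have h1 := hc i
    rw [hX]
    field_simp
    linear_combination h1
  obtain ⟨x₀, w, hT, hXw⟩ := toTri (rt 1 D) X (fun i h => by
    have h1 := hXi i
    rw [h, sub_self] at h1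
    have h2 : x - ε i = 0 := by
      rcases div_eq_zero_iff.1 h1.symm with h3 | h3
      · exact h3
      · exact absurd h3 (pow_ne_zero 2 hl)
    exact hx i (sub_eq_zero.1 h2)) (by
    rw [hXi 0, hXi 1, hXi 2]
    have e1 : (x - ε 0) / lam ^ 2 * ((x - ε 1) / lam ^ 2) * ((x - ε 2) / lam ^ 2) =
        (x - ε 0) * (x - ε 1) * (x - ε 2) / (lam ^ 3) ^ 2 := by
      field_simp
    rw [e1]
    exact hsq.div (IsSquare.sq _))
  have hw : (w : ℚ) ≠ 0 := by exact_mod_cast hT.s0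
  have hxc : ∀ i, ((Xc (rt 1 D) x₀ w i : ℤ) : ℚ) = (w : ℚ) ^ 2 / lam ^ 2 * (x - ε i) := by
    intro i
    have h1 := hXi i
    rw [hXw] at h1
    unfold Xc
    push_cast
    field_simp at h1 ⊢
    linear_combination h1
  have hxi : ∀ i, x - ε i = ((Xc (rt 1 D) x₀ w i : ℤ) : ℚ) * (lam / w) ^ 2 := by
    intro i
    rw [hxc i]
    field_simp
  rcases hD x₀ w hT with h1 | ⟨j, hj⟩
  · left
    intro i
    rw [hxi i]
    exact (Rat.isSquare_intCast_iff.2 (h1 i)).mul (IsSquare.sq _)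
  · right
    refine ⟨j, fun k hk => ?_⟩
    have h2 := Rat.isSquare_intCast_iff.2 (hj k hk)
    have h3 : ε j - ε k = lam ^ 2 * ((rt 1 D j : ℚ) - (rt 1 D k : ℚ)) := by
      linear_combination hc j - hc k
    have h4 : (x - ε k) * (ε j - ε k) = ((Xc (rt 1 D) x₀ w k * (rt 1 D j - rt 1 D k) : ℤ) : ℚ) *
        (lam * (lam / w)) ^ 2 := by
      rw [hxi k, h3]
      push_cast
      ring
    rw [h4]
    exact h2.mul (IsSquare.sq _)

end Pool.Agent.GT.OF.H85
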